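import Pool.Agent.Helper45.FL2.Loc1

/-!
# G1: locality of inclusions of sub-presheaves and monomorphisms
-/

open CategoryTheory MonoidalCategory Opposite HomotopicalAlgebra

set_option autoImplicit false

namespace Pool.Agent.Helper81.FL2

open FL

section

variable {A : Type} [SmallCategory A] {X : SP A}

theorem isIso_of_bij {P Q : SP A} (f : P ⟶ Q)
    (h : ∀ a k, Function.Bijective ((f.app a).app k)) : IsIso f := by
  have h1 : ∀ a, IsIso (f.app a) := by
    intro a
    have h2 : ∀ k, IsIso ((f.app a).app k) := fun k => (isIso_iff_bijective _).mpr (h a k)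
    exact NatIso.isIso_of_isIso_app _
  exact NatIso.isIso_of_isIso_app _

theorem inj_of_mono_app {P Q : SP A} (f : P ⟶ Q) (hf : ∀ a, Mono (f.app a)) (a : Aᵒᵖ)
    (k : SimplexCategoryᵒᵖ) : Function.Injective ((f.app a).app k) := by
  have := hf a
  exact (mono_iff_injective _).mp inferInstance

/-- The restriction of a monomorphism to the preimage of a sub-presheaf contained in the image. -/
theorem isIso_restr_comap {P Q : SP A} (f : P ⟶ Q) (hf : ∀ a, Mono (f.app a)) (S : Sb Q)
    (hS : S ≤ Sb.range f) : IsIso (Sb.restr f (S.comap f) S fun _ _ _ h => h) := by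
  refine isIso_of_bij _ fun a k => ⟨?_, ?_⟩
  · intro x y h
    exact Subtype.ext (inj_of_mono_app f hf a k (congrArg Subtype.val h))
  · rintro ⟨y, hy⟩
    obtain ⟨x, rfl⟩ := hS a k hy
    exact ⟨⟨x, hy⟩, rfl⟩

/-- Locality can be checked after restriction along a monomorphism. -/
theorem locT_comap {P Q : SP A} (f : P ⟶ Q) (hf : ∀ a, Mono (f.app a)) (S T : Sb Q)
    (hST : S ≤ T) (hT : T ≤ Sb.range f) : LocT X (S.comap f) (T.comap f) ↔ LocT X S T := by
  have h1 := isIso_restr_comap f hf S (hST.trans hT)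
  have h2 := isIso_restr_comap f hf T hT
  have hle : S.comap f ≤ T.comap f := fun a k x hx => hST a k hx
  have e : Sb.ofLE hle ≫ Sb.restr f (T.comap f) T (fun _ _ _ h => h) =
      Sb.restr f (S.comap f) S (fun _ _ _ h => h) ≫ Sb.ofLE hST := rfl
  constructor
  · rintro ⟨_, h⟩
    exact ⟨hST, Pool.Agent.Helper45.LOC.loc_of_arrow_iso
      (asIso (Sb.restr f (S.comap f) S fun _ _ _ h => h))
      (asIso (Sb.restr f (T.comap f) T fun _ _ _ h => h)) e h⟩
  · rintro ⟨_, h⟩
    refine ⟨hle, Pool.Agent.Helper45.LOC.loc_of_arrow_iso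
      (asIso (Sb.restr f (S.comap f) S fun _ _ _ h => h)).symm
      (asIso (Sb.restr f (T.comap f) T fun _ _ _ h => h)).symm ?_ h⟩
    show Sb.ofLE hST ≫ inv _ = inv _ ≫ Sb.ofLE hle
    rw [IsIso.eq_inv_comp, ← Category.assoc, IsIso.comp_inv_eq]
    exact e.symm

/-- A monomorphism is local if and only if its image is. -/
theorem loc_iff_range {P Q : SP A} (f : P ⟶ Q) (hf : ∀ a, Mono (f.app a)) :
    Loc X f ↔ LocT X (Sb.range f) ⊤ := by
  let u : P ⟶ (Sb.range f).toSP :=
    { app := fun a =>
        { app := fun k => ↾ fun x => ⟨(f.app a).app k x, ⟨x, rfl⟩⟩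
          naturality := fun k l α => by
            refine ConcreteCategory.hom_ext _ _ fun x => ?_
            exact Subtype.ext (hom_natk f α x) }
      naturality := fun a b g => by
        refine NatTrans.ext (funext fun k => ?_)
        refine ConcreteCategory.hom_ext _ _ fun x => ?_
        exact Subtype.ext (hom_nat f g x) }
  let v : Q ⟶ (⊤ : Sb Q).toSP :=
    { app := fun a =>
        { app := fun k => ↾ fun x => ⟨x, trivial⟩
          naturality := fun _ _ _ => rfl }
      naturality := fun _ _ _ => rfl }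
  have hu : IsIso u := isIso_of_bij _ fun a k => ⟨fun x y h =>
    inj_of_mono_app f hf a k (congrArg Subtype.val h), by
      rintro ⟨_, x, rfl⟩
      exact ⟨x, rfl⟩⟩
  have hv : IsIso v := isIso_of_bij _ fun a k => ⟨fun x y h => congrArg Subtype.val h,
    fun x => ⟨x.1, rfl⟩⟩
  have hle : Sb.range f ≤ ⊤ := le_top
  have e : f ≫ v = u ≫ Sb.ofLE hle := rfl
  constructor
  · intro h
    exact ⟨hle, Pool.Agent.Helper45.LOC.loc_of_arrow_iso (asIso u) (asIso v) e h⟩
  · rintro ⟨_, h⟩
    refine Pool.Agent.Helper45.LOC.loc_of_arrow_iso (asIso u).symm (asIso v).symm ?_ h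
    show Sb.ofLE hle ≫ inv v = inv u ≫ f
    rw [IsIso.eq_inv_comp, ← Category.assoc, IsIso.comp_inv_eq]
    exact e.symm

end

end Pool.Agent.Helper81.FL2
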