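import Pool.Agent.Helper81.FL2.Kan

/-!
# `Yc G X ⟶ Yc F X` is a Kan fibration
-/

open CategoryTheory MonoidalCategory Opposite

set_option autoImplicit false

namespace Pool.Agent.Helper81.FL2

open FL Pool.Agent.Helper45.LOC

variable {A : Type} [SmallCategory A]

theorem supp_univ (F : SimplexCategory ⥤ SP A) {N : SimplexCategory} {a : Aᵒᵖ}
    {k : SimplexCategoryᵒᵖ} (x : ((F.obj N).obj a).obj k) : Supp F Finset.univ x :=
  ⟨N, 𝟙 N, x, fun _ => Finset.mem_univ _, cos_id F x⟩

theorem cface_univ (F : SimplexCategory ⥤ SP A) (N : SimplexCategory) :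
    cface F (N := N) Finset.univ = ⊤ := by
  refine Sb.ext ?_
  funext a k
  ext z
  exact ⟨fun _ => trivial, fun _ => ⟨supp_univ F z.1, fun _ => Finset.mem_univ _⟩⟩

theorem cface_empty (F : SimplexCategory ⥤ SP A) (N : SimplexCategory) :
    cface F (N := N) ∅ = ⊥ := by
  refine Sb.ext ?_
  funext a k
  ext z
  exact ⟨fun h => absurd (h.2 0) (Finset.notMem_empty _), fun h => h.elim⟩

/-- the horn -/
def hornS (F : SimplexCategory ⥤ SP A) {n : ℕ} (i : Fin (n + 2)) :
    Sb (tn (F.obj (SimplexCategory.mk (n + 1))) (SSet.stdSimplex.obj (SimplexCategory.mk (n + 1)))) :=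
  (Finset.univ.erase i).sup fun j => cface F (N := SimplexCategory.mk (n + 1)) (Finset.univ.erase j)

theorem mem_hornS (F : SimplexCategory ⥤ SP A) {n : ℕ} (i : Fin (n + 2)) (a : Aᵒᵖ)
    (k : SimplexCategoryᵒᵖ)
    (z : ((tn (F.obj (SimplexCategory.mk (n + 1)))
      (SSet.stdSimplex.obj (SimplexCategory.mk (n + 1)))).obj a).obj k) :
    z ∈ (hornS F i).mem a k ↔ ∃ j, j ≠ i ∧
      z ∈ (cface F (N := SimplexCategory.mk (n + 1)) (Finset.univ.erase j)).mem a k := by
  unfold hornS
  rw [mem_finsetSup]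
  simp

theorem locT_horn {X : SP A} (hX : InjFib X) {F : SimplexCategory ⥤ SP A} (h : Ext X F) {n : ℕ}
    (i : Fin (n + 3)) : LocT X (hornS F i) ⊤ := by
  have h1 := Pool.Agent.Helper7.FL2.lat_HORN (N := n + 2)
    (cface F (N := SimplexCategory.mk (n + 2))) (cface_empty F _) (fun U V => cface_inf F U V)
    (LocT X) (fun _ _ _ h1 h2 => locT_trans hX h1 h2) (fun _ _ _ h1 h2 h3 => locT_cancel hX h1 h2 h3)
    (fun _ _ h1 => locT_push hX h1) (fun S S' v hv => ext_cface hX h S S' v hv)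
    Finset.univ (Finset.univ.erase i) (Finset.erase_ssubset (Finset.mem_univ i)) (by
      rw [Finset.card_erase_of_mem (Finset.mem_univ i), Finset.card_univ, Fintype.card_fin]
      omega)
  have h2 : cface F (N := SimplexCategory.mk (n + 2)) Finset.univ = ⊤ := cface_univ F _
  rw [h2] at h1
  exact h1

section

variable {F G : SimplexCategory ⥤ SP A} (u : F ⟶ G) (hu : ∀ m a, Mono ((u.app m).app a))

include hu in
theorem u_inj (m : SimplexCategory) (a : Aᵒᵖ) (k : SimplexCategoryᵒᵖ) :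
    Function.Injective (((u.app m).app a).app k) := by
  have := hu m a
  exact (mono_iff_injective _).1 (inferInstance : Mono (((u.app m).app a).app k))

theorem u_nat {m n : SimplexCategory} (α : m ⟶ n) (a : Aᵒᵖ) (k : SimplexCategoryᵒᵖ)
    (x : ((F.obj m).obj a).obj k) :
    ((u.app n).app a).app k (((F.map α).app a).app k x) =
      ((G.map α).app a).app k (((u.app m).app a).app k x) :=
  ConcreteCategory.congr_hom (NatTrans.congr_app (NatTrans.congr_app (u.naturality α) a) k) x

include hu in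
theorem supp_u {N : SimplexCategory} (U : Finset (Fin (N.len + 1))) (hU : U.Nonempty) {a : Aᵒᵖ}
    {k : SimplexCategoryᵒᵖ} (x : ((F.obj N).obj a).obj k) :
    Supp G U (((u.app N).app a).app k x) ↔ Supp F U x := by
  constructor
  · intro h
    obtain ⟨p, hp⟩ := hU
    have h1 := supp_fix h p hp
    rw [← u_nat] at h1
    exact ⟨N, rho U p hp, x, fun i => rhoFun_mem U p hp i, u_inj u hu _ _ _ h1⟩
  · rintro ⟨m, α, y, hα, rfl⟩
    exact ⟨m, α, ((u.app m).app a).app k y, hα, (u_nat u α a k y).symm⟩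

/-- the inclusion of `F_N ⊗ Δ[N]` into `G_N ⊗ Δ[N]` -/
abbrev fN (N : SimplexCategory) : tn (F.obj N) (SSet.stdSimplex.obj N) ⟶
    tn (G.obj N) (SSet.stdSimplex.obj N) := tnMap (u.app N) (𝟙 _)

include hu in
theorem fN_mono (N : SimplexCategory) (a : Aᵒᵖ) : Mono ((fN u N).app a) := by
  rw [NatTrans.mono_iff_mono_app]
  intro k
  rw [mono_iff_injective]
  rintro ⟨x, s⟩ ⟨x', s'⟩ h
  have h1 := congrArg Prod.fst h
  have h2 := congrArg Prod.snd h
  exact Prod.ext (u_inj u hu _ _ _ h1) h2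

include hu in
theorem comap_horn {n : ℕ} (i : Fin (n + 2)) :
    (hornS G i).comap (fN u (SimplexCategory.mk (n + 1))) = hornS F i := by
  refine Sb.ext ?_
  funext a k
  ext z
  change (((fN u (SimplexCategory.mk (n + 1))).app a).app k z ∈ (hornS G i).mem a k) ↔
    z ∈ (hornS F i).mem a k
  rw [mem_hornS, mem_hornS]
  refine exists_congr fun j => and_congr_right fun _ => ?_
  constructor
  · rintro ⟨h1, h2⟩
    exact ⟨(supp_u u hu _ ⟨_, h2 0⟩ z.1).1 h1, h2⟩
  · rintro ⟨h1, h2⟩
    exact ⟨(supp_u u hu _ ⟨_, h2 0⟩ z.1).2 h1, h2⟩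

include hu in
theorem locT_union {X : SP A} (hX : InjFib X) (hF : Ext X F) (hG : Ext X G) {n : ℕ}
    (i : Fin (n + 3)) :
    LocT X (hornS G i ⊔ Sb.range (fN u (SimplexCategory.mk (n + 2)))) ⊤ := by
  have h1 : LocT X (hornS G i ⊓ Sb.range (fN u (SimplexCategory.mk (n + 2))))
      (Sb.range (fN u (SimplexCategory.mk (n + 2)))) := by
    rw [← locT_comap (fN u (SimplexCategory.mk (n + 2))) (fN_mono u hu _) _ _ inf_le_right le_rfl]
    have e1 : (hornS G i ⊓ Sb.range (fN u (SimplexCategory.mk (n + 2)))).comap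
        (fN u (SimplexCategory.mk (n + 2))) = hornS F i := by
      rw [← comap_horn u hu i]
      refine Sb.ext ?_
      funext a k
      ext z
      exact ⟨fun h => h.1, fun h => ⟨h, ⟨z, rfl⟩⟩⟩
    have e2 : (Sb.range (fN u (SimplexCategory.mk (n + 2)))).comap
        (fN u (SimplexCategory.mk (n + 2))) = ⊤ := by
      refine Sb.ext ?_
      funext a k
      ext z
      exact ⟨fun _ => trivial, fun _ => ⟨z, rfl⟩⟩
    rw [e1, e2]
    exact locT_horn hX hF i
  exact locT_cancel hX (locT_push hX h1) (locT_horn hX hG i) le_top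

end

theorem mono_ofLE {P : SP A} {S T : Sb P} (h : S ≤ T) (a : Aᵒᵖ) : Mono ((Sb.ofLE h).app a) := by
  rw [NatTrans.mono_iff_mono_app]
  intro k
  rw [mono_iff_injective]
  intro x y hxy
  have h1 := congrArg Subtype.val hxy
  exact Subtype.ext h1

/-- horns of dimension at least 2 -/
theorem lift_horn {X : SP A} (hX : InjFib X) {F G : SimplexCategory ⥤ SP A} (u : F ⟶ G)
    (hu : ∀ m a, Mono ((u.app m).app a)) (hF : Ext X F) (hG : Ext X G) {n : ℕ} (i : Fin (n + 3))
    (σ : (SSet.horn.{0} (n + 2) i : SSet.{0}) ⟶ Yc G X)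
    (τ : SSet.stdSimplex.obj (SimplexCategory.mk (n + 2)) ⟶ Yc F X)
    (w : σ ≫ Yc.pre u X = (SSet.horn.{0} (n + 2) i).ι ≫ τ) :
    ∃ l : SSet.stdSimplex.obj (SimplexCategory.mk (n + 2)) ⟶ Yc G X,
      (SSet.horn.{0} (n + 2) i).ι ≫ l = σ ∧ l ≫ Yc.pre u X = τ := by
  classical
  let N := SimplexCategory.mk (n + 2)
  let τ0 : MpS (F.obj N) X N := SSet.yonedaEquiv τ
  -- the compatibility of σ and τ on the faces
  have hA : ∀ (j : Fin (n + 3)) (hj : j ≠ i),
      (Yc.pre u X).app _ (σ.app (op (SimplexCategory.mk (n + 1))) (SSet.horn.face i j hj)) =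
        (Yc F X).map (SimplexCategory.δ j).op τ0 := by
    intro j hj
    have h1 := ConcreteCategory.congr_hom (NatTrans.congr_app w (op (SimplexCategory.mk (n + 1))))
      (SSet.horn.face i j hj)
    refine h1.trans ?_
    exact sset_nat τ (SimplexCategory.δ j).op (SSet.stdSimplex.objEquiv.symm (𝟙 N))
  have hB : ∀ (j : Fin (n + 3)) (hj : j ≠ i) (a : Aᵒᵖ) (k : SimplexCategoryᵒᵖ) (s : k.unop ⟶ N)
      (x : ((F.obj N).obj a).obj k), Supp G (Finset.univ.erase j) (((u.app N).app a).app k x) →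
      (∀ l, s.toOrderHom l ≠ j) →
      gval σ j hj a k s (((u.app N).app a).app k x) = τ0.app a k s x := by
    intro j hj a k s x hx hs
    have hne : (Finset.univ.erase j : Finset (Fin (n + 3))).Nonempty :=
      ⟨s.toOrderHom 0, Finset.mem_erase.2 ⟨hs 0, Finset.mem_univ _⟩⟩
    have hx' : Supp F (N := N) (Finset.univ.erase j) x := (supp_u u hu _ hne x).1 hx
    obtain ⟨m, α, y, hα, rfl⟩ := hx'
    have hα' : ∀ l, α.toOrderHom l ≠ j := fun l => (Finset.mem_erase.1 (hα l)).1
    have e1 := comp_rj_δ j α hα'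
    have e2 := comp_rj_δ j s hs
    have h2 : gval σ j hj a k s (((u.app N).app a).app k (((F.map α).app a).app k y)) =
        MpS.app ((Yc.pre u X).app _ (σ.app (op (SimplexCategory.mk (n + 1)))
          (SSet.horn.face i j hj)) : MpS (F.obj _) X _) a k (s ≫ rj j)
          (((F.map (rj j)).app a).app k (((F.map α).app a).app k y)) := by
      change MpS.app _ a k _ _ = MpS.app _ a k _ _
      congr 1
      exact (u_nat u (rj j) a k _).symm
    rw [h2, hA]
    change τ0.app a k ((s ≫ rj j) ≫ SimplexCategory.δ j)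
      (((F.map (SimplexCategory.δ j)).app a).app k _) = _
    rw [← cos_comp, ← cos_comp, Category.assoc, e2, e1]
  -- the graph of the map on the union
  obtain ⟨R, hR⟩ : ∃ R : ∀ (a : Aᵒᵖ) (k : SimplexCategoryᵒᵖ),
      ((tn (G.obj N) (SSet.stdSimplex.obj N)).obj a).obj k → (X.obj a).obj k → Prop,
      ∀ a k z v, R a k z v ↔ ((∃ (j : Fin (n + 3)) (hj : j ≠ i),
        z ∈ (cface G (N := SimplexCategory.mk (n + 2)) (Finset.univ.erase j)).mem a k ∧
        v = gval σ j hj a k (SSet.stdSimplex.objEquiv z.2) z.1) ∨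
      (∃ x, ((u.app N).app a).app k x = z.1 ∧
        v = τ0.app a k (SSet.stdSimplex.objEquiv z.2) x)) := ⟨_, fun _ _ _ _ => Iff.rfl⟩
  have hun1 : ∀ a k (z : ((tn (G.obj N) (SSet.stdSimplex.obj N)).obj a).obj k)
      (j j' : Fin (n + 3)) (hj : j ≠ i) (hj' : j' ≠ i), j ≤ j' →
      z ∈ (cface G (N := N) (Finset.univ.erase j)).mem a k →
      z ∈ (cface G (N := N) (Finset.univ.erase j')).mem a k →
      gval σ j hj a k (SSet.stdSimplex.objEquiv z.2) z.1 =
        gval σ j' hj' a k (SSet.stdSimplex.objEquiv z.2) z.1 := by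
    intro a k z j j' hj hj' hle h1 h2
    rcases hle.lt_or_eq with hlt | heq
    · exact gval_indep σ j j' hj hj' hlt a k _ _ (supp_inter (h1.2 0) (h2.2 0) h1.1 h2.1)
        (fun l => (Finset.mem_erase.1 (h1.2 l)).1) (fun l => (Finset.mem_erase.1 (h2.2 l)).1)
    · subst heq
      rfl
  have hun2 : ∀ a k (z : ((tn (G.obj N) (SSet.stdSimplex.obj N)).obj a).obj k)
      (j : Fin (n + 3)) (hj : j ≠ i) (x : ((F.obj N).obj a).obj k),
      z ∈ (cface G (N := N) (Finset.univ.erase j)).mem a k →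
      ((u.app N).app a).app k x = z.1 →
      gval σ j hj a k (SSet.stdSimplex.objEquiv z.2) z.1 =
        τ0.app a k (SSet.stdSimplex.objEquiv z.2) x := by
    rintro a k ⟨z1, z2⟩ j hj x h1 h2
    dsimp only at h2
    subst h2
    exact hB j hj a k _ x h1.1 (fun l => (Finset.mem_erase.1 (h1.2 l)).1)
  have hun : ∀ a k z v v', R a k z v → R a k z v' → v = v' := by
    intro a k z v v' hv hv'
    rw [hR] at hv hv'
    rcases hv with ⟨j, hj, h1, rfl⟩ | ⟨x, h1, rfl⟩ <;>
      rcases hv' with ⟨j', hj', h2, rfl⟩ | ⟨x', h2, rfl⟩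
    · rcases le_total j j' with h | h
      · exact hun1 a k z j j' hj hj' h h1 h2
      · exact (hun1 a k z j' j hj' hj h h2 h1).symm
    · exact hun2 a k z j hj x' h1 h2
    · exact (hun2 a k z j' hj' x h2 h1).symm
    · rw [u_inj u hu _ _ _ (h1.trans h2.symm)]
  -- the map on the union
  obtain ⟨f, hf⟩ := exists_map_of_rel (X := X)
    (hornS G i ⊔ Sb.range (fN u (SimplexCategory.mk (n + 2)))) R
    (by
      intro a k z hz
      rcases hz with hz | hz
      · obtain ⟨j, hj, h⟩ := (mem_hornS G i a k z).1 hz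
        exact ⟨_, (hR _ _ _ _).2 (Or.inl ⟨j, hj, h, rfl⟩)⟩
      · obtain ⟨y, rfl⟩ := hz
        exact ⟨_, (hR _ _ _ _).2 (Or.inr ⟨y.1, rfl, rfl⟩)⟩)
    hun
    (by
      intro a b g k z v hv
      rw [hR] at hv ⊢
      obtain ⟨z1, z2⟩ := z
      rcases hv with ⟨j, hj, h1, rfl⟩ | ⟨x, h1, rfl⟩
      · refine Or.inl ⟨j, hj, Sb.mapA _ g k _ h1, ?_⟩
        change _ = gval σ j hj b k (SSet.stdSimplex.objEquiv z2) (((G.obj N).map g).app k z1)
        unfold gval
        rw [← MpS.nat_left]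
        congr 1
        exact (hom_nat (G.map (rj j)) g z1).symm
      · dsimp only at h1
        subst h1
        refine Or.inr ⟨((F.obj N).map g).app k x, hom_nat (u.app N) g x, ?_⟩
        exact (τ0.nat_left g k _ x).symm)
    (by
      intro a k l g z v hv
      rw [hR] at hv ⊢
      obtain ⟨z1, z2⟩ := z
      rcases hv with ⟨j, hj, h1, rfl⟩ | ⟨x, h1, rfl⟩
      · refine Or.inl ⟨j, hj, Sb.mapk _ a g _ h1, ?_⟩
        change _ = gval σ j hj a l (g.unop ≫ SSet.stdSimplex.objEquiv z2)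
          (((G.obj N).obj a).map g z1)
        unfold gval
        rw [← MpS.nat_right]
        congr 1
        exact (hom_natk (G.map (rj j)) g z1).symm
      · dsimp only at h1
        subst h1
        refine Or.inr ⟨((F.obj N).obj a).map g x, hom_natk (u.app N) g x, ?_⟩
        exact (τ0.nat_right a g _ x).symm)
  obtain ⟨hle, hloc⟩ := locT_union u hu hX hF hG i
  obtain ⟨g', hg'⟩ := loc_extend hX (Sb.ofLE hle) (mono_ofLE hle) hloc f
  have hfg : ∀ (a : Aᵒᵖ) (k : SimplexCategoryᵒᵖ)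
      (z : ((tn (G.obj N) (SSet.stdSimplex.obj N)).obj a).obj k)
      (hz : z ∈ (hornS G i ⊔ Sb.range (fN u N)).mem a k),
      (g'.app a).app k ⟨z, trivial⟩ = (f.app a).app k ⟨z, hz⟩ := by
    intro a k z hz
    exact ConcreteCategory.congr_hom (NatTrans.congr_app (NatTrans.congr_app hg' a) k) ⟨z, hz⟩
  let φ : MpS (G.obj N) X N :=
    { app := fun a k s x => (g'.app a).app k ⟨(x, SSet.stdSimplex.objEquiv.symm s), trivial⟩
      nat_left := fun f k s x => hom_nat g' f ⟨(x, SSet.stdSimplex.objEquiv.symm s), trivial⟩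
      nat_right := fun a k l g s x => hom_natk g' g
        ⟨(x, SSet.stdSimplex.objEquiv.symm s), trivial⟩ }
  refine ⟨SSet.yonedaEquiv.symm φ, ?_, ?_⟩
  · refine SSet.horn.hom_ext _ _ fun j hj => ?_
    refine MpS.ext ?_
    funext a k s x
    change (g'.app a).app k ⟨(((G.map (SimplexCategory.δ j)).app a).app k x,
      SSet.stdSimplex.objEquiv.symm (s ≫ SimplexCategory.δ j)), trivial⟩ = _
    have hz : ((((G.map (SimplexCategory.δ j)).app a).app k x,
        SSet.stdSimplex.objEquiv.symm (s ≫ SimplexCategory.δ j)) :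
        ((tn (G.obj N) (SSet.stdSimplex.obj N)).obj a).obj k) ∈
        (cface G (N := N) (Finset.univ.erase j)).mem a k :=
      ⟨⟨_, SimplexCategory.δ j, x, fun l => Finset.mem_erase.2 ⟨δ_apply_ne j l, Finset.mem_univ _⟩,
        rfl⟩, fun l => Finset.mem_erase.2 ⟨δ_apply_ne j _, Finset.mem_univ _⟩⟩
    have hz' := (mem_hornS G i a k _).2 ⟨j, hj, hz⟩
    rw [hfg a k _ (Or.inl hz')]
    refine (hun a k _ _ _ (hf a k ⟨_, Or.inl hz'⟩) ((hR _ _ _ _).2 (Or.inl ⟨j, hj, hz, rfl⟩))).trans ?_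
    have h3 := gval_comp σ j hj a k (𝟙 _) s x
    rw [Category.id_comp] at h3
    refine h3.trans ?_
    have h4 : (SSet.horn.{0} (n + 2) i : SSet.{0}).map (𝟙 (SimplexCategory.mk (n + 1))).op
      (SSet.horn.face i j hj) = SSet.horn.face i j hj := sset_id _ _
    rw [h4]
  · rw [SSet.yonedaEquiv_symm_comp, Equiv.symm_apply_eq]
    refine MpS.ext ?_
    funext a k s x
    have hz : ((((u.app N).app a).app k x, SSet.stdSimplex.objEquiv.symm s) :
        ((tn (G.obj N) (SSet.stdSimplex.obj N)).obj a).obj k) ∈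
        (Sb.range (fN u N)).mem a k := ⟨(x, SSet.stdSimplex.objEquiv.symm s), rfl⟩
    change (g'.app a).app k ⟨(((u.app N).app a).app k x, SSet.stdSimplex.objEquiv.symm s),
      trivial⟩ = τ0.app a k s x
    rw [hfg a k _ (Or.inr hz)]
    exact hun a k _ _ _ (hf a k ⟨_, Or.inr hz⟩) ((hR _ _ _ _).2 (Or.inr ⟨x, rfl, rfl⟩))

theorem Yc_pre_kanFib {X : SP A} (hX : InjFib X) {F G : SimplexCategory ⥤ SP A} (u : F ⟶ G)
    (hu : ∀ m a, Mono ((u.app m).app a)) (hF : Ext X F) (hG : Ext X G)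
    (edge : ∀ i : Fin 2, HasLiftingProperty (SSet.horn.{0} 1 i).ι (Yc.pre u X)) :
    KanFib (Yc.pre u X) := by
  intro n i
  rcases n with _ | n
  · exact edge i
  · refine ⟨fun {σ τ} sq => ?_⟩
    obtain ⟨l, h1, h2⟩ := lift_horn hX u hu hF hG i σ τ sq.w
    exact ⟨⟨⟨l, h1, h2⟩⟩⟩

section Kan

theorem kan_of_fill (Z : SSet.{0}) (h : ∀ (n : ℕ) (i : Fin (n + 2))
    (σ : (SSet.horn.{0} (n + 1) i : SSet.{0}) ⟶ Z),
    ∃ l : SSet.stdSimplex.obj (SimplexCategory.mk (n + 1)) ⟶ Z,
      (SSet.horn.{0} (n + 1) i).ι ≫ l = σ) : SSet.KanComplex Z := by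
  rw [SSet.KanComplex.iff]
  intro n i f hf
  obtain ⟨σ, hσ⟩ : ∃ σ : (SSet.horn.{0} (n + 1) i : SSet.{0}) ⟶ Z,
      ∀ (j : Fin (n + 2)) (hj : j ≠ i), SSet.horn.ι i j hj ≫ σ = f j hj :=
    ⟨hf.desc, fun j hj => by simp⟩
  obtain ⟨l, hl⟩ := h n i σ
  refine ⟨l, fun j hj => ?_⟩
  rw [← hσ j hj, ← hl, ← Category.assoc, SSet.horn.ι_ι]

/-- the empty simplicial presheaf -/
def emp (A : Type) [SmallCategory A] : SP A := (⊥ : Sb (P := (Functor.const _).obj (SSet.stdSimplex.{0}.obj
  (SimplexCategory.mk 0))) ).toSP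

theorem emp_elim {A : Type} [SmallCategory A] {a : Aᵒᵖ} {k : SimplexCategoryᵒᵖ}
    (x : ((emp A).obj a).obj k) : False := x.2

/-- the map from the empty presheaf -/
def empTo {A : Type} [SmallCategory A] (P : SP A) : emp A ⟶ P where
  app a :=
    { app := fun k => ↾ fun x => (emp_elim x).elim
      naturality := fun k l α => by
        refine ConcreteCategory.hom_ext _ _ fun x => ?_
        exact (emp_elim x).elim }
  naturality a b f := by
    refine NatTrans.ext (funext fun k => ?_)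
    refine ConcreteCategory.hom_ext _ _ fun x => ?_
    exact (emp_elim x).elim

theorem emp_hom_ext {A : Type} [SmallCategory A] {P : SP A} (f g : emp A ⟶ P) : f = g := by
  refine NatTrans.ext (funext fun a => NatTrans.ext (funext fun k => ?_))
  refine ConcreteCategory.hom_ext _ _ fun x => ?_
  exact (emp_elim x).elim

/-- the empty cosimplicial object -/
def empCos (F : SimplexCategory ⥤ SP A) : (Functor.const SimplexCategory).obj (emp A) ⟶ F where
  app m := empTo (F.obj m)
  naturality _ _ _ := emp_hom_ext _ _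

theorem Yc_kan {X : SP A} (hX : InjFib X) {F : SimplexCategory ⥤ SP A} (h : Ext X F) :
    SSet.KanComplex (Yc F X) := by
  apply kan_of_fill
  intro n i σ
  rcases n with _ | n
  · obtain ⟨j0, hj0⟩ : ∃ j : Fin 2, j ≠ i := exists_ne i
    let v := σ.app (op (SimplexCategory.mk 0)) (SSet.horn.face i j0 hj0)
    refine ⟨SSet.yonedaEquiv.symm ((Yc F X).map (SimplexCategory.const (SimplexCategory.mk 1)
      (SimplexCategory.mk 0) 0).op v), ?_⟩
    refine SSet.horn.hom_ext _ _ fun j hj => ?_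
    have hjj : j = j0 := by
      have h1 := i.isLt
      have h2 := j.isLt
      have h3 := j0.isLt
      have h4 : (j : ℕ) ≠ i := fun e => hj (Fin.ext e)
      have h5 : (j0 : ℕ) ≠ i := fun e => hj0 (Fin.ext e)
      apply Fin.ext
      omega
    subst hjj
    change (Yc F X).map (SimplexCategory.δ j).op ((Yc F X).map (SimplexCategory.const
      (SimplexCategory.mk 1) (SimplexCategory.mk 0) 0).op v) = v
    rw [← sset_comp]
    refine Eq.trans ?_ (sset_id _ v)
    refine congrArg (fun t => (Yc F X).map t v) ?_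
    refine Quiver.Hom.unop_inj ?_
    apply sc_ext
    intro l
    exact Subsingleton.elim (α := Fin 1) _ _
  · have hE : Ext X ((Functor.const SimplexCategory).obj (emp A)) := by
      intro N S S' v _
      have e : fface ((Functor.const SimplexCategory).obj (emp A)) S ⊔
          fface ((Functor.const SimplexCategory).obj (emp A)) S' =
          fface ((Functor.const SimplexCategory).obj (emp A)) (S ∪ S') := by
        refine Sb.ext ?_
        funext a k
        ext x
        exact (emp_elim x).elim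
      rw [e]
      exact locT_refl _
    have hsub : ∀ (m : SimplexCategory) (φ ψ : MpS (emp A) X m), φ = ψ := by
      intro m φ ψ
      refine MpS.ext ?_
      funext a k s x
      exact (emp_elim x).elim
    let τ : SSet.stdSimplex.obj (SimplexCategory.mk (n + 2)) ⟶
        Yc ((Functor.const SimplexCategory).obj (emp A)) X :=
      SSet.yonedaEquiv.symm (MpS.ofHom _ (empTo X))
    obtain ⟨l, h1, _⟩ := lift_horn hX (empCos F) (fun m a => by
      rw [NatTrans.mono_iff_mono_app]
      intro k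
      rw [mono_iff_injective]
      intro x y _
      exact (emp_elim x).elim) hE h i σ τ (by
        refine NatTrans.ext (funext fun m => ?_)
        refine ConcreteCategory.hom_ext _ _ fun x => ?_
        exact hsub _ _ _)
    exact ⟨l, h1⟩

end Kan

end Pool.Agent.Helper81.FL2
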