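import Pool.Agent.Helper58.FL2.Comb

/-!
# Faces of cosimplicial simplicial presheaves
-/

open CategoryTheory MonoidalCategory Opposite

set_option autoImplicit false

namespace Pool.Agent.Helper81.FL2

open FL

section Retraction

variable {N : ℕ} (U : Finset (Fin (N + 1))) (p : Fin (N + 1)) (hp : p ∈ U)

/-- the retraction onto `U`, rounding towards `p` -/
def rhoFun (i : Fin (N + 1)) : Fin (N + 1) :=
  if h : p ≤ i then (U.filter (· ≤ i)).max' ⟨p, Finset.mem_filter.2 ⟨hp, h⟩⟩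
  else (U.filter (i ≤ ·)).min' ⟨p, Finset.mem_filter.2 ⟨hp, (not_le.1 h).le⟩⟩

theorem rhoFun_ge {i : Fin (N + 1)} (h : p ≤ i) :
    rhoFun U p hp i ∈ U ∧ p ≤ rhoFun U p hp i ∧ rhoFun U p hp i ≤ i := by
  have h1 := Finset.max'_mem (U.filter (· ≤ i)) ⟨p, Finset.mem_filter.2 ⟨hp, h⟩⟩
  have e : rhoFun U p hp i = (U.filter (· ≤ i)).max' ⟨p, Finset.mem_filter.2 ⟨hp, h⟩⟩ := by
    unfold rhoFun
    rw [dif_pos h]
  rw [← e] at h1
  have h2 := Finset.mem_filter.1 h1
  refine ⟨h2.1, ?_, h2.2⟩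
  rw [e]
  exact Finset.le_max' _ _ (Finset.mem_filter.2 ⟨hp, h⟩)

theorem rhoFun_le {i : Fin (N + 1)} (h : i ≤ p) :
    rhoFun U p hp i ∈ U ∧ i ≤ rhoFun U p hp i ∧ rhoFun U p hp i ≤ p := by
  by_cases h' : p ≤ i
  · have hi : i = p := le_antisymm h h'
    obtain ⟨h1, h2, h3⟩ := rhoFun_ge U p hp h'
    exact ⟨h1, by rw [hi] at h2 ⊢; exact h2, by rw [hi] at h3 ⊢; exact h3⟩
  · have h1 := Finset.min'_mem (U.filter (i ≤ ·)) ⟨p, Finset.mem_filter.2 ⟨hp, h⟩⟩
    have e : rhoFun U p hp i = (U.filter (i ≤ ·)).min' ⟨p, Finset.mem_filter.2 ⟨hp, h⟩⟩ := by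
      unfold rhoFun
      rw [dif_neg h']
    rw [← e] at h1
    have h2 := Finset.mem_filter.1 h1
    refine ⟨h2.1, h2.2, ?_⟩
    rw [e]
    exact Finset.min'_le _ _ (Finset.mem_filter.2 ⟨hp, h⟩)

theorem rhoFun_mem (i : Fin (N + 1)) : rhoFun U p hp i ∈ U := by
  rcases le_total p i with h | h
  · exact (rhoFun_ge U p hp h).1
  · exact (rhoFun_le U p hp h).1

theorem rhoFun_fix {i : Fin (N + 1)} (hi : i ∈ U) : rhoFun U p hp i = i := by
  by_cases h : p ≤ i
  · refine le_antisymm (rhoFun_ge U p hp h).2.2 ?_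
    unfold rhoFun
    rw [dif_pos h]
    exact Finset.le_max' (U.filter (· ≤ i)) i (Finset.mem_filter.2 ⟨hi, le_rfl⟩)
  · refine le_antisymm ?_ (rhoFun_le U p hp (not_le.1 h).le).2.1
    unfold rhoFun
    rw [dif_neg h]
    exact Finset.min'_le (U.filter (i ≤ ·)) i (Finset.mem_filter.2 ⟨hi, le_rfl⟩)

theorem rhoFun_mono : Monotone (rhoFun U p hp) := by
  intro i j hij
  by_cases hi : p ≤ i
  · have hj := hi.trans hij
    unfold rhoFun
    rw [dif_pos hi, dif_pos hj]
    refine Finset.max'_le _ _ _ fun u hu => ?_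
    have := Finset.mem_filter.1 hu
    exact Finset.le_max' (U.filter (· ≤ j)) u (Finset.mem_filter.2 ⟨this.1, this.2.trans hij⟩)
  · by_cases hj : p ≤ j
    · exact ((rhoFun_le U p hp (not_le.1 hi).le).2.2).trans (rhoFun_ge U p hp hj).2.1
    · unfold rhoFun
      rw [dif_neg hi, dif_neg hj]
      refine Finset.le_min' _ _ _ fun u hu => ?_
      have := Finset.mem_filter.1 hu
      exact Finset.min'_le (U.filter (i ≤ ·)) u (Finset.mem_filter.2 ⟨this.1, hij.trans this.2⟩)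

end Retraction

/-- the retraction as a morphism of the simplex category -/
def rho {N : SimplexCategory} (U : Finset (Fin (N.len + 1))) (p : Fin (N.len + 1)) (hp : p ∈ U) :
    N ⟶ N :=
  SimplexCategory.Hom.mk ⟨rhoFun U p hp, rhoFun_mono U p hp⟩

theorem rho_apply {N : SimplexCategory} (U : Finset (Fin (N.len + 1))) (p : Fin (N.len + 1))
    (hp : p ∈ U) (i : Fin (N.len + 1)) : (rho U p hp).toOrderHom i = rhoFun U p hp i := rfl

theorem comp_rho {m N : SimplexCategory} (U : Finset (Fin (N.len + 1))) (p : Fin (N.len + 1))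
    (hp : p ∈ U) (α : m ⟶ N) (h : ∀ i, α.toOrderHom i ∈ U) : α ≫ rho U p hp = α := by
  apply SimplexCategory.Hom.ext
  ext i : 2
  exact rhoFun_fix U p hp (h i)

section

variable {A : Type} [SmallCategory A]

/-- an element supported on `U` is fixed by the retraction onto `U` -/
theorem supp_fix {F : SimplexCategory ⥤ SP A} {N : SimplexCategory}
    {U : Finset (Fin (N.len + 1))} {a : Aᵒᵖ} {k : SimplexCategoryᵒᵖ}
    {x : ((F.obj N).obj a).obj k} (h : Supp F U x) (p : Fin (N.len + 1)) (hp : p ∈ U) :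
    ((F.map (rho U p hp)).app a).app k x = x := by
  obtain ⟨m, α, y, hα, rfl⟩ := h
  rw [← cos_comp, comp_rho U p hp α hα]

theorem supp_mono {F : SimplexCategory ⥤ SP A} {N : SimplexCategory}
    {U V : Finset (Fin (N.len + 1))} (hUV : U ⊆ V) {a : Aᵒᵖ} {k : SimplexCategoryᵒᵖ}
    {x : ((F.obj N).obj a).obj k} (h : Supp F U x) : Supp F V x := by
  obtain ⟨m, α, y, hα, rfl⟩ := h
  exact ⟨m, α, y, fun i => hUV (hα i), rfl⟩

/-- maps which move towards `p` -/
def Twd {N : SimplexCategory} (p : Fin (N.len + 1)) (e : N ⟶ N) : Prop :=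
  ∀ i, (p ≤ i → p ≤ e.toOrderHom i ∧ e.toOrderHom i ≤ i) ∧
    (i ≤ p → i ≤ e.toOrderHom i ∧ e.toOrderHom i ≤ p)

/-- the total distance to `p` -/
def mu {N : SimplexCategory} (p : Fin (N.len + 1)) (e : N ⟶ N) : ℕ :=
  ∑ i, (((e.toOrderHom i : ℕ) - (p : ℕ)) + ((p : ℕ) - (e.toOrderHom i : ℕ)))

theorem supp_inter {F : SimplexCategory ⥤ SP A} {N : SimplexCategory}
    {U V : Finset (Fin (N.len + 1))} {p : Fin (N.len + 1)} (hpU : p ∈ U) (hpV : p ∈ V)
    {a : Aᵒᵖ} {k : SimplexCategoryᵒᵖ} {x : ((F.obj N).obj a).obj k} (hU : Supp F U x)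
    (hV : Supp F V x) : Supp F (U ∩ V) x := by
  classical
  have fU := supp_fix hU p hpU
  have fV := supp_fix hV p hpV
  -- a minimal map fixing x
  have hex : ∃ n, ∃ e : N ⟶ N, Twd p e ∧ ((F.map e).app a).app k x = x ∧ mu p e = n :=
    ⟨_, 𝟙 N, fun i => ⟨fun h => ⟨h, le_rfl⟩, fun h => ⟨le_rfl, h⟩⟩, cos_id F x, rfl⟩
  obtain ⟨e, he1, he2, he3⟩ := Nat.find_spec hex
  have hmin : ∀ (W : Finset (Fin (N.len + 1))) (hW : p ∈ W),
      ((F.map (rho W p hW)).app a).app k x = x → ∀ i, e.toOrderHom i ∈ W := by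
    intro W hW fW i
    by_contra hi
    have hT : Twd p (e ≫ rho W p hW) := by
      intro j
      constructor
      · intro hj
        obtain ⟨h1, h2⟩ := (he1 j).1 hj
        obtain ⟨_, h3, h4⟩ := rhoFun_ge W p hW h1
        exact ⟨h3, h4.trans h2⟩
      · intro hj
        obtain ⟨h1, h2⟩ := (he1 j).2 hj
        obtain ⟨_, h3, h4⟩ := rhoFun_le W p hW h2
        exact ⟨h1.trans h3, h4⟩
    have hF : ((F.map (e ≫ rho W p hW)).app a).app k x = x := by
      rw [cos_comp, he2, fW]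
    have hlt : mu p (e ≫ rho W p hW) < mu p e := by
      unfold mu
      have hval : ∀ j, (e ≫ rho W p hW).toOrderHom j = rhoFun W p hW (e.toOrderHom j) :=
        fun _ => rfl
      refine Finset.sum_lt_sum (fun j _ => ?_) ⟨i, Finset.mem_univ i, ?_⟩
      · rw [hval]
        rcases le_total p (e.toOrderHom j) with h | h
        · obtain ⟨_, h3, h4⟩ := rhoFun_ge W p hW h
          rw [Fin.le_def] at h h3 h4
          omega
        · obtain ⟨_, h3, h4⟩ := rhoFun_le W p hW h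
          rw [Fin.le_def] at h h3 h4
          omega
      · rw [hval]
        have hne : rhoFun W p hW (e.toOrderHom i) ≠ e.toOrderHom i := by
          intro h
          exact hi (h ▸ rhoFun_mem W p hW _)
        have hne' : (rhoFun W p hW (e.toOrderHom i) : ℕ) ≠ (e.toOrderHom i : ℕ) :=
          fun h => hne (Fin.ext h)
        rcases le_total p (e.toOrderHom i) with h | h
        · obtain ⟨_, h3, h4⟩ := rhoFun_ge W p hW h
          rw [Fin.le_def] at h h3 h4
          omega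
        · obtain ⟨_, h3, h4⟩ := rhoFun_le W p hW h
          rw [Fin.le_def] at h h3 h4
          omega
    rw [he3] at hlt
    exact Nat.find_min hex hlt ⟨_, hT, hF, rfl⟩
  refine ⟨N, e, x, fun i => Finset.mem_inter.2 ⟨hmin U hpU fU i, hmin V hpV fV i⟩, he2⟩

theorem fface_inf (F : SimplexCategory ⥤ SP A) {N : SimplexCategory}
    (U V : Finset (Fin (N.len + 1))) (h : (U ∩ V).Nonempty) :
    fface F (U ∩ V) = fface F U ⊓ fface F V := by
  obtain ⟨p, hp⟩ := h
  obtain ⟨hpU, hpV⟩ := Finset.mem_inter.1 hp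
  refine Sb.ext ?_
  funext a k
  ext x
  constructor
  · intro hx
    exact ⟨supp_mono Finset.inter_subset_left hx, supp_mono Finset.inter_subset_right hx⟩
  · rintro ⟨h1, h2⟩
    exact supp_inter hpU hpV h1 h2

theorem cface_inf (F : SimplexCategory ⥤ SP A) {N : SimplexCategory}
    (U V : Finset (Fin (N.len + 1))) : cface F (U ∩ V) = cface F U ⊓ cface F V := by
  refine Sb.ext ?_
  funext a k
  ext z
  constructor
  · rintro ⟨hx, hs⟩
    exact ⟨⟨supp_mono Finset.inter_subset_left hx, fun i => (Finset.mem_inter.1 (hs i)).1⟩,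
      ⟨supp_mono Finset.inter_subset_right hx, fun i => (Finset.mem_inter.1 (hs i)).2⟩⟩
  · rintro ⟨⟨hx, hs⟩, ⟨hx', hs'⟩⟩
    exact ⟨supp_inter (hs 0) (hs' 0) hx hx', fun i => Finset.mem_inter.2 ⟨hs i, hs' i⟩⟩

end

end Pool.Agent.Helper81.FL2
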