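import Pool.Agent.Helper25.FL2.TrHm
import Pool.Agent.Helper41.FL2.RR
import Pool.Agent.Helper91.FL.GauntFinal

/-!
# F7 DX: existence of the flagged category attached to a Segal presheaf
-/

open CategoryTheory MonoidalCategory Opposite HomotopicalAlgebra

set_option autoImplicit false

namespace Pool.Agent.Helper81.FL2

open FL

section DX

variable {n : ℕ}

/-- The statements of other sections used in this file. -/
structure DXDeps (n : ℕ) : Prop where
  isCat_of_objHoEq : ∀ {X Y : SP (Th n)} (_ : InjFib X) (_ : InjFib Y) {f : X ⟶ Y}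
    (_ : ObjHoEq f), IsCat n X ↔ IsCat n Y
  Cp_isCat : ∀ {A : SP (Th n)} (_ : ObjKan A) (_ : Sg n ((RR (Th n)).obj A)),
    IsCat n ((Cp n n).obj A) ∧ ∃ e : (RR (Th n)).obj A ⟶ (Cp n n).obj A,
      (RR (Th n)).η A ≫ e = (Cp n n).η A ∧ ES n n e
  ES_of_arrow_iso : ∀ {i : ℕ} {X Y X' Y' : SP (Th n)} {f : X ⟶ Y} {f' : X' ⟶ Y'}
    (e : X ≅ X') (e' : Y ≅ Y') (_ : f ≫ e'.hom = e.hom ≫ f') (_ : ES n i f), ES n i f'
  ES_comp : ∀ {X Y Z : SP (Th n)} (_ : InjFib Y) (_ : InjFib Z) {f : X ⟶ Y} {g : Y ⟶ Z}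
    (_ : InjFib X) (_ : ES n n f) (_ : ES n n g), ES n n (f ≫ g)
  ES_of_objHoEq : ∀ {X Y : SP (Th n)} (_ : InjFib X) (_ : InjFib Y) {f : X ⟶ Y}
    (_ : ObjHoEq f), ES n n f
  sg_tr : ∀ {X : SP (Th n)} (_ : Sg n X) (i : ℕ), Sg n ((RR (Th n)).obj ((tr n i).op ⋙ X))
  tr_down : ∀ {X Y : SP (Th n)} (_ : Sg n X) (_ : IsCat n Y) {i : ℕ}
    (e : (tr n i).op ⋙ X ⟶ Y) (e' : (RR (Th n)).obj ((tr n i).op ⋙ X) ⟶ Y)
    (_ : (RR (Th n)).η _ ≫ e' = e) (_ : ES n n e'), ES n i e ∧ Truncated i Y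
  surj_of_ES : ∀ {X : SP (Th n)} {D : SP (Gn n)} (_ : Sg n X) (_ : InjFib D)
    (f : filt X ⟶ D) (_ : ∀ i : Fin (n + 1), ES n i (levelHom f i)) (i j : Fin (n + 1))
    (hij : i ≤ j) (k : ℕ) (_ : k ≤ i.1) (P Q : SP (Th n)) (b : P ⟶ Q) (_ : IsBd n k b)
    (x : P ⟶ level D i) (y : Q ⟶ level D j) (_ : x ≫ levelMap D hij = b ≫ y),
    ∃ z : Q ⟶ level D i, b ≫ z = x ∧ z ≫ levelMap D hij = y

/-- The map `filt X ⟶ seqK K X` given by the units. -/
noncomputable def unitF (K : SFun (Th n)) (X : SP (Th n)) : filt X ⟶ seqK K X where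
  app g := (K.η ((tr n g.unop.2.unop).op ⋙ X)).app (op g.unop.1)
  naturality g g' u := by
    have h1 := NatTrans.congr_app (K.η_naturality (Functor.whiskerRight
      (NatTrans.op (trMap n g.unop.2.unop g'.unop.2.unop (leOfHom u.unop.2.unop))) X))
      (op g.unop.1)
    have h2 := (K.η ((tr n g'.unop.2.unop).op ⋙ X)).naturality u.unop.1.op
    have h3 : (filt X).map u = (Functor.whiskerRight (NatTrans.op (trMap n g.unop.2.unop
        g'.unop.2.unop (leOfHom u.unop.2.unop))) X).app (op g.unop.1) ≫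
        ((tr n g'.unop.2.unop).op ⋙ X).map u.unop.1.op := X.map_comp _ _
    rw [h3]
    refine (Category.assoc _ _ _).trans ?_
    refine (congrArg (_ ≫ ·) h2).trans ?_
    refine (Category.assoc _ _ _).symm.trans ?_
    refine (congrArg (· ≫ _) h1).trans ?_
    exact Category.assoc _ _ _

/-- The levels of `seqK K X`. -/
noncomputable def levelSeqK (K : SFun (Th n)) (X : SP (Th n)) (i : Fin (n + 1)) :
    level (seqK K X) i ≅ K.obj ((tr n i.1).op ⋙ X) :=
  NatIso.ofComponents (fun _ => Iso.refl _) (by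
    intro θ θ' f
    refine (Category.comp_id _).trans (Eq.trans ?_ (Category.id_comp _).symm)
    have e : Functor.whiskerRight
        (NatTrans.op (trMap n i.1 i.1 (le_refl _))) X = 𝟙 _ := by
      rw [trMap_refl]
      ext a
      simp
    refine (congrArg (fun t : (tr n i.1).op ⋙ X ⟶ (tr n i.1).op ⋙ X =>
      (K.map t).app θ ≫ (K.obj ((tr n i.1).op ⋙ X)).map f) e).trans ?_
    rw [K.map_id]
    exact Category.id_comp _)

theorem exists_flagged_of (H : DXDeps n) {X : SP (Th n)} (hX : Sg n X) :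
    ∃ (D : SP (Gn n)) (f : filt X ⟶ D), Flagged D ∧
      ∀ i : Fin (n + 1), ES n i (levelHom f i) := by
  have hXk : ObjKan X := Pool.Agent.Helper46.FLb.InjFib.objKan
    (fun X {_} hZ => Pool.Agent.Helper83.FL4.Mp_kan X hZ) hX.1
  have hAk : ∀ i : ℕ, ObjKan ((tr n i).op ⋙ X) := fun i a => hXk _
  have hC := fun i : ℕ => H.Cp_isCat (hAk i) (H.sg_tr hX i)
  have hSk : ObjKan (seqK (Cp n n) X) := fun g =>
    Pool.Agent.Helper46.FLb.InjFib.objKan
      (fun X {_} hZ => Pool.Agent.Helper83.FL4.Mp_kan X hZ) (hC g.unop.2.unop).1.inj _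
  have hD : InjFib ((RR (Gn n)).obj (seqK (Cp n n) X)) := Helper41FL2.RR_injFib hSk
  have hη : ObjHoEq ((RR (Gn n)).η (seqK (Cp n n) X)) := Helper41FL2.RR_objHoEq hSk
  have hL : ∀ i : Fin (n + 1), InjFib (level ((RR (Gn n)).obj (seqK (Cp n n) X)) i) :=
    fun i => Pool.Agent.Helper30.FL16.level_injFib_of Pool.Agent.Helper91.FL17a.tool hD i
  have key : ∀ i : Fin (n + 1), ObjHoEq ((levelSeqK (Cp n n) X i).inv ≫
      levelHom ((RR (Gn n)).η (seqK (Cp n n) X)) i) := by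
    intro i θ
    have := hη (op (θ.unop, op i))
    refine (congrArg HoEq ?_).mp this
    exact (Category.id_comp _).symm
  have hcat : ∀ i : Fin (n + 1), IsCat n (level ((RR (Gn n)).obj (seqK (Cp n n) X)) i) :=
    fun i => (H.isCat_of_objHoEq (hC i).1.inj (hL i) (key i)).mp (hC i).1
  have hES : ∀ i : Fin (n + 1),
      ES n i ((Cp n n).η ((tr n i.1).op ⋙ X) ≫ (levelSeqK (Cp n n) X i).inv ≫
        levelHom ((RR (Gn n)).η (seqK (Cp n n) X)) i) ∧
      Truncated i (level ((RR (Gn n)).obj (seqK (Cp n n) X)) i) := by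
    intro i
    obtain ⟨e, he, he'⟩ := (hC i).2
    refine H.tr_down hX (hcat i) _ (e ≫ (levelSeqK (Cp n n) X i).inv ≫
      levelHom ((RR (Gn n)).η (seqK (Cp n n) X)) i) ?_ ?_
    · rw [← Category.assoc, he]
    · exact H.ES_comp (hC i).1.inj (hL i) (Helper41FL2.RR_injFib (hAk i)) he'
        (H.ES_of_objHoEq (hC i).1.inj (hL i) (key i))
  have hf : ∀ i : Fin (n + 1), ES n i
      (levelHom (unitF (Cp n n) X ≫ (RR (Gn n)).η (seqK (Cp n n) X)) i) := by
    intro i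
    obtain ⟨E, hE⟩ := Pool.Agent.Helper25.FL2.level_filt X i
    refine H.ES_of_arrow_iso E.symm (Iso.refl _) ?_ (hES i).1
    rw [Iso.symm_hom, Iso.eq_inv_comp, Iso.refl_hom, Category.comp_id]
    refine NatTrans.ext (funext fun θ => NatTrans.ext (funext fun k => ?_))
    refine ConcreteCategory.hom_ext _ _ fun x => ?_
    exact congrArg (fun t => (((RR (Gn n)).η (seqK (Cp n n) X)).app (op (θ.unop, op i))).app k
      ((((Cp n n).η ((tr n i.1).op ⋙ X)).app θ).app k t)) (hE θ k x)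
  exact ⟨_, unitF (Cp n n) X ≫ (RR (Gn n)).η (seqK (Cp n n) X),
    ⟨hD, hcat, fun i => (hES i).2, fun i j h k hk P Q b hb x y hxy =>
      H.surj_of_ES hX hD _ hf i j h k hk P Q b hb x y hxy⟩, hf⟩

end DX

end Pool.Agent.Helper81.FL2
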