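import Pool.Agent.Helper81.FL2.Face
import Pool.Agent.Helper45.FL2.LocAll

/-!
# The gluing condition for the faces `F_U ⊗ Δ^U`
-/

open CategoryTheory MonoidalCategory Opposite

set_option autoImplicit false

namespace Pool.Agent.Helper81.FL2

open FL Pool.Agent.Helper45.LOC

variable {A : Type} [SmallCategory A]

/-- the projection -/
def tnFst (P : SP A) (K : SSet.{0}) : tn P K ⟶ P where
  app a :=
    { app := fun k => ↾ fun (z : (P.obj a).obj k × K.obj k) => z.1
      naturality := fun _ _ _ => rfl }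
  naturality _ _ _ := rfl

/-- the map `t, s ↦ (u0` where `t = 0`, `s` where `t = 1)` -/
def mix {k N : SimplexCategory} (u0 : Fin (N.len + 1)) (t : k ⟶ SimplexCategory.mk 1) (s : k ⟶ N)
    (h : ∀ i, u0 ≤ s.toOrderHom i) : k ⟶ N :=
  SimplexCategory.Hom.mk ⟨fun i => if t.toOrderHom i = 0 then u0 else s.toOrderHom i, by
    intro i j hij
    dsimp only
    have ht := t.toOrderHom.monotone hij
    have hs := s.toOrderHom.monotone hij
    by_cases hi : t.toOrderHom i = 0
    · rw [if_pos hi]
      split_ifs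
      · exact le_rfl
      · exact h j
    · have hj : t.toOrderHom j ≠ 0 := fun hj => hi (le_antisymm (hj ▸ ht) (Fin.zero_le _))
      rw [if_neg hi, if_neg hj]
      exact hs⟩

theorem mix_apply {k N : SimplexCategory} (u0 : Fin (N.len + 1)) (t : k ⟶ SimplexCategory.mk 1)
    (s : k ⟶ N) (h : ∀ i, u0 ≤ s.toOrderHom i) (i : Fin (k.len + 1)) :
    (mix u0 t s h).toOrderHom i = if t.toOrderHom i = 0 then u0 else s.toOrderHom i := rfl

theorem sc_ext {k N : SimplexCategory} {f g : k ⟶ N} (h : ∀ i, f.toOrderHom i = g.toOrderHom i) :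
    f = g := by
  apply SimplexCategory.Hom.ext
  ext i : 2
  exact h i

section

variable (F : SimplexCategory ⥤ SP A) {N : SimplexCategory} (U : Finset (Fin (N.len + 1)))
  (hU : U.Nonempty)

/-- the section of the projection given by the first vertex of `U` -/
def secU : (fface F U).toSP ⟶ (cface F U).toSP where
  app a :=
    { app := fun k => ↾ fun (x : (fface F U).toSP.obj a |>.obj k) =>
        ⟨(x.1, SSet.stdSimplex.objEquiv.symm (SimplexCategory.const k.unop N (U.min' hU))),
          x.2, fun _ => Finset.min'_mem U hU⟩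
      naturality := fun k l α => by
        refine ConcreteCategory.hom_ext _ _ fun x => ?_
        rfl }
  naturality a b f := by
    refine NatTrans.ext (funext fun k => ?_)
    refine ConcreteCategory.hom_ext _ _ fun x => ?_
    rfl

/-- the contraction -/
def conU : MpS (cface F U).toSP (cface F U).toSP (SimplexCategory.mk 1) where
  app a k t z :=
    ⟨(z.1.1, SSet.stdSimplex.objEquiv.symm (mix (U.min' hU) t (SSet.stdSimplex.objEquiv z.1.2)
      (fun i => Finset.min'_le U _ (z.2.2 i)))), z.2.1, fun i => by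
        change (mix (U.min' hU) t (SSet.stdSimplex.objEquiv z.1.2)
          (fun i => Finset.min'_le U _ (z.2.2 i))).toOrderHom i ∈ U
        rw [mix_apply]
        split_ifs
        · exact Finset.min'_mem U hU
        · exact z.2.2 i⟩
  nat_left f k t z := rfl
  nat_right a k l g t z := by
    refine Subtype.ext (Prod.ext rfl ?_)
    apply SSet.stdSimplex.objEquiv.injective
    apply sc_ext
    intro i
    rfl

include hU in
theorem loc_face {X : SP A} : Loc X (Sb.restr (tnFst (F.obj N) (SSet.stdSimplex.obj N))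
    (cface F U) (fface F U) (fun _ _ _ hx => hx.1)) := by
  refine loc_of_sdr ⟨secU F U hU, rfl, conU F U hU, ?_, ?_⟩
  · refine MpS.ext ?_
    funext a k t z
    refine Subtype.ext (Prod.ext rfl ?_)
    apply SSet.stdSimplex.objEquiv.injective
    apply sc_ext
    intro i
    change (if (t ≫ SimplexCategory.δ 1).toOrderHom i = 0 then U.min' hU else _) = U.min' hU
    rw [if_pos]
    change (SimplexCategory.δ (1 : Fin 2)).toOrderHom (t.toOrderHom i) = 0
    have e : t.toOrderHom i = 0 := Subsingleton.elim (α := Fin 1) _ _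
    rw [e]
    rfl
  · refine MpS.ext ?_
    funext a k t z
    refine Subtype.ext (Prod.ext rfl ?_)
    apply SSet.stdSimplex.objEquiv.injective
    apply sc_ext
    intro i
    change (if (t ≫ SimplexCategory.δ 0).toOrderHom i = 0 then U.min' hU else _) = _
    rw [if_neg]
    · rfl
    · change (SimplexCategory.δ (0 : Fin 2)).toOrderHom (t.toOrderHom i) ≠ 0
      have e : t.toOrderHom i = 0 := Subsingleton.elim (α := Fin 1) _ _
      rw [e]
      change (1 : Fin 2) ≠ 0
      decide

end

theorem loc_restr_congr {X P Q : SP A} (f : P ⟶ Q) {S S' : Sb P} {T T' : Sb Q} (hS : S = S')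
    (hT : T = T') (h : ∀ (a : Aᵒᵖ) (k : SimplexCategoryᵒᵖ) (x : (P.obj a).obj k),
      x ∈ S.mem a k → (f.app a).app k x ∈ T.mem a k)
    (h' : ∀ (a : Aᵒᵖ) (k : SimplexCategoryᵒᵖ) (x : (P.obj a).obj k),
      x ∈ S'.mem a k → (f.app a).app k x ∈ T'.mem a k) (hl : Loc X (Sb.restr f S T h)) :
    Loc X (Sb.restr f S' T' h') := by
  subst hS hT
  exact hl

theorem ext_cface {X : SP A} (hX : InjFib X) {F : SimplexCategory ⥤ SP A} (h : Ext X F)
    {N : SimplexCategory} (S S' : Finset (Fin (N.len + 1))) (v : Fin (N.len + 1))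
    (hv : S ∩ S' = {v}) : LocT X (cface F S ⊔ cface F S') (cface F (S ∪ S')) := by
  have hvS : v ∈ S ∩ S' := by rw [hv]; exact Finset.mem_singleton_self v
  obtain ⟨hv1, hv2⟩ := Finset.mem_inter.1 hvS
  have hle : cface F S ⊔ cface F S' ≤ cface F (S ∪ S') := by
    intro a k z hz
    rcases hz with hz | hz
    · exact ⟨supp_mono Finset.subset_union_left hz.1, fun i => Finset.mem_union_left _ (hz.2 i)⟩
    · exact ⟨supp_mono Finset.subset_union_right hz.1, fun i => Finset.mem_union_right _ (hz.2 i)⟩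
  refine ⟨hle, ?_⟩
  obtain ⟨hle', hloc⟩ := h N S S' v hv
  have h1 := loc_face F S ⟨v, hv1⟩ (X := X)
  have h2 := loc_face F S' ⟨v, hv2⟩ (X := X)
  have h12 : Loc X (Sb.restr (tnFst (F.obj N) (SSet.stdSimplex.obj N))
      (cface F S ⊓ cface F S') (fface F S ⊓ fface F S') fun a k x hx => ⟨hx.1.1, hx.2.1⟩) := by
    exact loc_restr_congr (tnFst (F.obj N) (SSet.stdSimplex.obj N)) (cface_inf F S S')
      (fface_inf F S S' ⟨v, hvS⟩) _ _ (loc_face F (S ∩ S') ⟨v, hvS⟩)
  have h3 := loc_restr_sup hX (tnFst (F.obj N) (SSet.stdSimplex.obj N)) (cface F S) (cface F S')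
    (fface F S) (fface F S') (fun _ _ _ hx => hx.1) (fun _ _ _ hx => hx.1) h1 h2 h12
  have h4 := loc_face F (S ∪ S') ⟨v, Finset.mem_union_left _ hv1⟩ (X := X)
  have h5 : Loc X (Sb.ofLE hle ≫ Sb.restr (tnFst (F.obj N) (SSet.stdSimplex.obj N))
      (cface F (S ∪ S')) (fface F (S ∪ S')) (fun _ _ _ hx => hx.1)) := by
    have e : Sb.ofLE hle ≫ Sb.restr (tnFst (F.obj N) (SSet.stdSimplex.obj N))
        (cface F (S ∪ S')) (fface F (S ∪ S')) (fun _ _ _ hx => hx.1) =
        Sb.restr (tnFst (F.obj N) (SSet.stdSimplex.obj N)) (cface F S ⊔ cface F S')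
          (fface F S ⊔ fface F S') (fun a k x hx => hx.elim (fun h => Or.inl h.1)
            fun h => Or.inr h.1) ≫ Sb.ofLE hle' := rfl
    rw [e]
    exact loc_comp hX h3 hloc
  exact loc_of_comp_right hX h4 h5

end Pool.Agent.Helper81.FL2
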