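import Pool.Agent.Helper81.FL2.ExtC
import Pool.Agent.Helper7.FL2.Lat

/-!
# Horns in `Yc F X`
-/

open CategoryTheory MonoidalCategory Opposite

set_option autoImplicit false

namespace Pool.Agent.Helper81.FL2

open FL Pool.Agent.Helper45.LOC

variable {A : Type} [SmallCategory A]

/-- a map from a sub-presheaf given by its graph -/
theorem exists_map_of_rel {P X : SP A} (W : Sb P)
    (R : ∀ (a : Aᵒᵖ) (k : SimplexCategoryᵒᵖ), (P.obj a).obj k → (X.obj a).obj k → Prop)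
    (ex : ∀ a k z, z ∈ W.mem a k → ∃ v, R a k z v)
    (un : ∀ a k z v v', R a k z v → R a k z v' → v = v')
    (natA : ∀ {a b : Aᵒᵖ} (f : a ⟶ b) (k : SimplexCategoryᵒᵖ) z v, R a k z v →
      R b k ((P.map f).app k z) ((X.map f).app k v))
    (natk : ∀ (a : Aᵒᵖ) {k l : SimplexCategoryᵒᵖ} (g : k ⟶ l) z v, R a k z v →
      R a l ((P.obj a).map g z) ((X.obj a).map g v)) :
    ∃ f : W.toSP ⟶ X, ∀ (a : Aᵒᵖ) (k : SimplexCategoryᵒᵖ) (z : (W.toSP.obj a).obj k),
      R a k z.1 ((f.app a).app k z) := by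
  choose φ hφ using ex
  refine ⟨{ app := fun a => { app := fun k => ↾ fun z => φ a k z.1 z.2, naturality := ?_ },
            naturality := ?_ }, ?_⟩
  · intro k l g
    refine ConcreteCategory.hom_ext _ _ fun z => ?_
    exact un a l _ _ _ (hφ a l _ (W.mapk a g z.1 z.2)) (natk a g _ _ (hφ a k z.1 z.2))
  · intro a b f
    refine NatTrans.ext (funext fun k => ?_)
    refine ConcreteCategory.hom_ext _ _ fun z => ?_
    exact un b k _ _ _ (hφ b k _ (W.mapA f k z.1 z.2)) (natA f k _ _ (hφ a k z.1 z.2))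
  · intro a k z
    exact hφ a k z.1 z.2

theorem mem_finsetSup {P : SP A} {ι : Type} (T : Finset ι) (f : ι → Sb P) (a : Aᵒᵖ)
    (k : SimplexCategoryᵒᵖ) (x : (P.obj a).obj k) :
    x ∈ (T.sup f).mem a k ↔ ∃ j ∈ T, x ∈ (f j).mem a k := by
  classical
  induction T using Finset.induction_on with
  | empty => simp
  | insert j T _ ih =>
    rw [Finset.sup_insert, Sb.mem_sup, ih]
    simp

/-- the retraction of `δ j` -/
def rj {n : ℕ} (j : Fin (n + 2)) : SimplexCategory.mk (n + 1) ⟶ SimplexCategory.mk n :=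
  SimplexCategory.σ (Fin.predAbove 0 j)

theorem comp_rj_δ {m : SimplexCategory} {n : ℕ} (j : Fin (n + 2))
    (θ : m ⟶ SimplexCategory.mk (n + 1)) (h : ∀ i, θ.toOrderHom i ≠ j) :
    θ ≫ rj j ≫ SimplexCategory.δ j = θ := by
  have := SimplexCategory.factor_δ_spec (m := m.len) θ j h
  exact (Category.assoc _ _ _).symm.trans this

theorem δ_apply_ne {n : ℕ} (j : Fin (n + 2)) (i : Fin (n + 1)) :
    (SimplexCategory.δ j).toOrderHom i ≠ j := Fin.succAbove_ne j i

theorem δ_rj {n : ℕ} (j : Fin (n + 2)) : SimplexCategory.δ j ≫ rj j = 𝟙 _ := by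
  have h := comp_rj_δ j (SimplexCategory.δ j) (δ_apply_ne j)
  rw [← Category.assoc] at h
  exact (cancel_mono (SimplexCategory.δ j)).1 (h.trans (Category.id_comp _).symm)

/-- a map which avoids `j < j'` factors -/
theorem factor_two {m : SimplexCategory} {n : ℕ} (j : Fin (n + 2)) (j' : Fin (n + 3))
    (hlt : j.castSucc < j') (θ : m ⟶ SimplexCategory.mk (n + 2))
    (h : ∀ i, θ.toOrderHom i ≠ j.castSucc) (h' : ∀ i, θ.toOrderHom i ≠ j') :
    (θ ≫ rj j' ≫ rj j) ≫ SimplexCategory.δ j ≫ SimplexCategory.δ j' = θ := by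
  have h1 : ∀ i, (θ ≫ rj j').toOrderHom i ≠ j := by
    intro i hi
    apply h i
    have h2 := congrArg (fun φ => φ.toOrderHom i) (comp_rj_δ j' θ h')
    refine (Eq.trans ?_ h2).symm
    change _ = (SimplexCategory.δ j').toOrderHom ((θ ≫ rj j').toOrderHom i)
    rw [hi]
    exact (Fin.succAbove_of_castSucc_lt j' j hlt).symm
  have h2 := comp_rj_δ j (θ ≫ rj j') h1
  calc (θ ≫ rj j' ≫ rj j) ≫ SimplexCategory.δ j ≫ SimplexCategory.δ j'
      = ((θ ≫ rj j') ≫ rj j ≫ SimplexCategory.δ j) ≫ SimplexCategory.δ j' := by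
        simp only [Category.assoc]
    _ = (θ ≫ rj j') ≫ SimplexCategory.δ j' := by rw [h2]
    _ = θ := by rw [Category.assoc]; exact comp_rj_δ j' θ h'

section

variable {G : SimplexCategory ⥤ SP A} {X : SP A} {n : ℕ} {i : Fin (n + 2)}

/-- the value of a horn on the face `j` -/
def gval (σ : (SSet.horn.{0} (n + 1) i : SSet.{0}) ⟶ Yc G X) (j : Fin (n + 2)) (hj : j ≠ i)
    (a : Aᵒᵖ) (k : SimplexCategoryᵒᵖ) (s : k.unop ⟶ SimplexCategory.mk (n + 1))
    (x : ((G.obj (SimplexCategory.mk (n + 1))).obj a).obj k) : (X.obj a).obj k :=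
  MpS.app (σ.app (op (SimplexCategory.mk n)) (SSet.horn.face i j hj) : MpS (G.obj _) X _) a k
    (s ≫ rj j) (((G.map (rj j)).app a).app k x)

theorem gval_comp (σ : (SSet.horn.{0} (n + 1) i : SSet.{0}) ⟶ Yc G X) (j : Fin (n + 2))
    (hj : j ≠ i) (a : Aᵒᵖ) (k : SimplexCategoryᵒᵖ) {M : SimplexCategory}
    (κ : M ⟶ SimplexCategory.mk n) (s : k.unop ⟶ M) (x : ((G.obj M).obj a).obj k) :
    gval σ j hj a k (s ≫ κ ≫ SimplexCategory.δ j)
      (((G.map (κ ≫ SimplexCategory.δ j)).app a).app k x) =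
    MpS.app (σ.app (op M) ((SSet.horn.{0} (n + 1) i : SSet.{0}).map κ.op
      (SSet.horn.face i j hj)) : MpS (G.obj _) X _) a k s x := by
  have h1 : σ.app (op M) ((SSet.horn.{0} (n + 1) i : SSet.{0}).map κ.op
      (SSet.horn.face i j hj)) = (Yc G X).map κ.op
        (σ.app (op (SimplexCategory.mk n)) (SSet.horn.face i j hj)) := sset_nat σ κ.op _
  rw [h1]
  change MpS.app _ a k _ _ = MpS.app _ a k (s ≫ κ) (((G.map κ).app a).app k x)
  congr 1
  · rw [Category.assoc, Category.assoc, δ_rj, Category.comp_id]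
  · rw [← cos_comp, Category.assoc, δ_rj, Category.comp_id]

theorem face_map_eq {n : ℕ} {i : Fin (n + 2)} {M : SimplexCategory} (j j' : Fin (n + 2))
    (hj : j ≠ i) (hj' : j' ≠ i) (κ κ' : M ⟶ SimplexCategory.mk n)
    (h : κ ≫ SimplexCategory.δ j = κ' ≫ SimplexCategory.δ j') :
    (SSet.horn.{0} (n + 1) i : SSet.{0}).map κ.op (SSet.horn.face i j hj) =
      (SSet.horn.{0} (n + 1) i : SSet.{0}).map κ'.op (SSet.horn.face i j' hj') := by
  apply Subtype.ext
  apply SSet.stdSimplex.objEquiv.injective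
  exact h

end

theorem gval_indep {G : SimplexCategory ⥤ SP A} {X : SP A} {n : ℕ} {i : Fin (n + 3)}
    (σ : (SSet.horn.{0} (n + 2) i : SSet.{0}) ⟶ Yc G X) (j j' : Fin (n + 3)) (hj : j ≠ i)
    (hj' : j' ≠ i) (hlt : j < j') (a : Aᵒᵖ) (k : SimplexCategoryᵒᵖ)
    (s : k.unop ⟶ SimplexCategory.mk (n + 2))
    (x : ((G.obj (SimplexCategory.mk (n + 2))).obj a).obj k)
    (hx : Supp G (Finset.univ.erase j ∩ Finset.univ.erase j') x)
    (hs : ∀ l, s.toOrderHom l ≠ j) (hs' : ∀ l, s.toOrderHom l ≠ j') :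
    gval σ j hj a k s x = gval σ j' hj' a k s x := by
  obtain ⟨m, γ, w, hγ, rfl⟩ := hx
  have hγ1 : ∀ l, γ.toOrderHom l ≠ j := fun l =>
    (Finset.mem_erase.1 (Finset.mem_inter.1 (hγ l)).1).1
  have hγ2 : ∀ l, γ.toOrderHom l ≠ j' := fun l =>
    (Finset.mem_erase.1 (Finset.mem_inter.1 (hγ l)).2).1
  have hj0 : j ≠ Fin.last _ := fun h => by
    rw [h] at hlt
    exact absurd (Fin.le_last j') (not_le.2 hlt)
  obtain ⟨j0, rfl⟩ : ∃ j0 : Fin (n + 2), j0.castSucc = j := ⟨j.castPred hj0, Fin.castSucc_castPred j hj0⟩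
  have e1 := factor_two j0 j' hlt s hs hs'
  have e2 := factor_two j0 j' hlt γ hγ1 hγ2
  have hne : j' ≠ 0 := fun h => by
    rw [h] at hlt
    exact absurd (Fin.zero_le _) (not_le.2 hlt)
  have hδ : SimplexCategory.δ j0 ≫ SimplexCategory.δ j' =
      SimplexCategory.δ (j'.pred hne) ≫ SimplexCategory.δ j0.castSucc :=
    SimplexCategory.δ_comp_δ' hlt
  have hx1 : ((G.map γ).app a).app k w =
      ((G.map (SimplexCategory.δ j0 ≫ SimplexCategory.δ j')).app a).app k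
        (((G.map (γ ≫ rj j' ≫ rj j0)).app a).app k w) := by
    rw [← cos_comp, e2]
  generalize s ≫ rj j' ≫ rj j0 = s0 at e1
  generalize ((G.map (γ ≫ rj j' ≫ rj j0)).app a).app k w = w0 at hx1
  rw [hx1, ← e1]
  rw [gval_comp σ j' hj' a k (SimplexCategory.δ j0) s0 w0]
  rw [hδ]
  rw [gval_comp σ j0.castSucc hj a k (SimplexCategory.δ (j'.pred hne)) s0 w0]
  rw [face_map_eq j0.castSucc j' hj hj' (SimplexCategory.δ (j'.pred hne)) (SimplexCategory.δ j0)
    hδ.symm]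

end Pool.Agent.Helper81.FL2
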